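import Pool.Agent.Q76.BK.Fin

/-!
# Hardy regularity of kernels of Bergman-space extremal functions

Let `1 < p < ∞` and let `F` be the extremal function of the functional on the Bergman space `A^p` of
the unit disc with the kernel `k ∈ A^q`, `q = p / (p - 1)`. Ryabykh's theorem, as extended by
Ferguson, says that `k ∈ H^(q₁)` implies `F ∈ H^((p-1) q₁)`. Here the converse is proved, for all
`1 < p < ∞` and all `1 < q₁ < ∞`: if `F ∈ H^((p-1) q₁)` then `k ∈ H^(q₁)`.

The proof: `k` is a multiple of the Bergman projection of `Φ = |F|^(p-2) F`. For a positive harmonic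
function `G` with the analytic completion `V`, the pairing of `2 z Φ` and `V'` is the integral of
`(1 - |z|^2) 2 ∂Φ/∂z` times the conjugate of `V'`, and this is bounded through Green's formula by a
Bellman function `Θ(F, G)`, whose Laplacian is at least `c |F|^(p-2) |F'| |V'|` and which is at
most `C (|F|^((p-1) q₁) + G^(q₁'))`.
-/

set_option autoImplicit false

open Complex MeasureTheory Metric

namespace Pool.Agent.Results.MP_397fae_an.KernelInHardy

/-- `f` is in the Bergman space `A^p` of the unit disc. -/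
def InBergman (p : ℝ) (f : ℂ → ℂ) : Prop :=
  DifferentiableOn ℂ f (ball 0 1) ∧ IntegrableOn (fun z => ‖f z‖ ^ p) (ball 0 1)

/-- The norm of `A^p`, with respect to the normalised area measure. -/
noncomputable def bergmanNorm (p : ℝ) (f : ℂ → ℂ) : ℝ :=
  (Real.pi⁻¹ * ∫ z in ball (0:ℂ) 1, ‖f z‖ ^ p) ^ (1 / p)

/-- The functional with the kernel `k`, `φ(g) = ∫ g k̄ dσ`. -/
noncomputable def functional (k g : ℂ → ℂ) : ℂ :=
  (Real.pi : ℂ)⁻¹ * ∫ z in ball (0:ℂ) 1, g z * (starRingEnd ℂ) (k z)

/-- `F` is an extremal function of the functional with the kernel `k`: it has norm one and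
`Re φ(F)` is the greatest value of `Re φ` at elements of norm one. -/
def IsExtremal (p : ℝ) (k F : ℂ → ℂ) : Prop :=
  InBergman p F ∧ bergmanNorm p F = 1 ∧
    ∀ g, InBergman p g → bergmanNorm p g = 1 → (functional k g).re ≤ (functional k F).re

/-- The integral mean `M_s(f, r)`. -/
noncomputable def circleNorm (s : ℝ) (f : ℂ → ℂ) (r : ℝ) : ℝ :=
  ((2 * Real.pi)⁻¹ * ∫ θ in (0:ℝ)..(2 * Real.pi), ‖f (circleMap 0 r θ)‖ ^ s) ^ (1 / s)

/-- `f` is in the Hardy space `H^s` of the unit disc. -/
def InHardy (s : ℝ) (f : ℂ → ℂ) : Prop :=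
  DifferentiableOn ℂ f (ball 0 1) ∧ ∃ B : ℝ, ∀ r : ℝ, 0 < r → r < 1 → circleNorm s f r ≤ B

/-- **The implication of Q1 holds for all `1 < p < ∞` and all `1 < q₁ < ∞`.** -/
theorem result (p q₁ : ℝ) (hp : 1 < p) (hq₁ : 1 < q₁) (k F : ℂ → ℂ)
    (hk : InBergman (p / (p - 1)) k) (hF : IsExtremal p k F) (hH : InHardy ((p - 1) * q₁) F) :
    InHardy q₁ k :=
  Pool.Agent.Q76.BK.main hp hq₁ hk hF hH

end Pool.Agent.Results.MP_397fae_an.KernelInHardy
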